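import Mathlib
import Pool.Agent.Lib.MP_f5837d_co.Surround
import Pool.Agent.Lib.MP_f5837d_co.FIN

/-!
Q1 of MP_f5837d_co: every connected toroidal graph has surrounding cop number at most seven. The
definitions used in the statement are in `Pool/Agent/Lib/MP_f5837d_co/Surround.lean`.
-/

open Pool.Agent.MP_f5837d_co

/-- Seven cops win the surrounding game on every finite connected toroidal graph, so its surrounding
cop number is at most seven. -/
theorem Pool.Agent.Results.MP_f5837d_co.SevenCops.result {V : Type} [Finite V]
    (G : SimpleGraph V) (hG : G.Connected) (ht : IsToroidal G) :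
    CopsWin G 7 ∧ surroundingNumber G ≤ 7 :=
  ⟨Pool.Agent.MP_f5837d_co.main hG ht, Nat.sInf_le (Pool.Agent.MP_f5837d_co.main hG ht)⟩
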